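import Pool.Agent.Y852.ST.B

/-!
# Job ST-STR of project ST (helper320): the invariant measurable conformal structure
-/

set_option autoImplicit false
open Filter Topology MeasureTheory Metric

namespace Pool.Agent.Y852.ST
open Pool.Agent.Y320.ST Pool.Agent.Y320.CM

theorem str (hS : S_STB) (hR : S_ROT) (hD : S_DIFF) (hN : S_NZ) (hC : S_CTB) : S_STR := by
  intro G _ τ hA N hq
  have : Countable G := hC G τ hA
  obtain ⟨K, hK1, hK⟩ := good_ae τ hS hR hD hN hA N hq
  classical
  have hK0 : 0 ≤ K := by linarith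
  have hKs : 1 ≤ K ^ 2 := one_le_pow₀ hK1
  set S : Set ℂ := Good τ (K ^ 2) with hSdef
  have hSm : MeasurableSet S := meas_good τ hS hA _
  set m : ℝ := mom (√(K ^ 2))⁻¹ with hm
  have hs0 : 0 < (√(K ^ 2))⁻¹ := inv_pos.2 (Real.sqrt_pos.2 (by linarith))
  have hm0 : 0 < m := mom_pos _ hs0
  set M : ℝ := (volume (closedBall (0 : ℂ) 1)).toReal with hM
  set C : ℝ := max 1 (max M m⁻¹) with hCdef
  have hC1 : 1 ≤ C := le_max_left _ _
  have hCM : M ≤ C := (le_max_left _ _).trans (le_max_right _ _)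
  have hCm : m⁻¹ ≤ C := (le_max_right _ _).trans (le_max_right _ _)
  have hC0 : 0 < C := by linarith
  have hCi : C⁻¹ ≤ m := by
    rw [inv_le_comm₀ hC0 hm0]; exact hCm
  have hCi1 : C⁻¹ ≤ 1 := inv_le_one_of_one_le₀ hC1
  refine ⟨fun z => if z ∈ S then J τ (fun v => v.im ^ 2) z else 1,
    fun z => if z ∈ S then -(J τ (fun v => v.re * v.im) z) else 0,
    fun z => if z ∈ S then J τ (fun v => v.re ^ 2) z else 1, C, hC0, ?_, ?_, ?_, ?_, ?_⟩
  · exact Measurable.ite hSm (meas_J τ _ (by fun_prop)) measurable_const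
  · exact Measurable.ite hSm (meas_J τ _ (by fun_prop)).neg measurable_const
  · exact Measurable.ite hSm (meas_J τ _ (by fun_prop)) measurable_const
  · intro z w
    by_cases hz : z ∈ S
    · simp only [hz, if_true]
      rw [qf_J τ hS hA z w]
      constructor
      · refine (mul_le_mul_of_nonneg_right hCi (by positivity)).trans ?_
        exact J_ge τ hS hA (K ^ 2) hKs z hz w
      · refine (J_le τ hS hA z w).trans ?_
        exact mul_le_mul_of_nonneg_right hCM (by positivity)
    · simp only [hz, if_false]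
      have h1 : qf 1 0 1 w = ‖w‖ ^ 2 := by
        rw [norm_sq_eq]; unfold qf; ring
      rw [h1]
      have h2 : 0 ≤ ‖w‖ ^ 2 := by positivity
      constructor
      · nlinarith
      · nlinarith
  · filter_upwards [hK] with z hz g
    have hz2 : z ∈ S := by
      intro h
      obtain ⟨a1, a2, a3, a4⟩ := hz h
      refine ⟨a1, a2, a3, a4.trans ?_⟩
      have h3 : K ≤ K ^ 2 := by nlinarith
      exact mul_le_mul_of_nonneg_right h3 (abs_nonneg _)
    have hw : pl (τ g) z ∈ S := (step τ hS hA K hK0 z hz g).1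
    obtain ⟨a1, a2, a3, a4⟩ := hz g
    refine ⟨a1, a2, |(Dg τ g z).det|, abs_pos.2 a3, ?_⟩
    intro w
    simp only [hz2, hw, if_true]
    rw [qf_J τ hS hA, qf_J τ hS hA]
    exact J_inv τ hS hA K hK0 z hz g w

end Pool.Agent.Y852.ST
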