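import Pool.Agent.Y320.ST.Stm
import Pool.Agent.Y320.CM.Basic2

/-!
# Job ST-STR of project ST (helper320), part one: linear algebra in the plane and one map
-/

set_option autoImplicit false
open Filter Topology MeasureTheory Metric

namespace Pool.Agent.Y852.ST
open Pool.Agent.Y320.ST Pool.Agent.Y320.CM

/-- the determinant of two vectors of the plane -/
def dt (u v : ℂ) : ℝ := u.re * v.im - u.im * v.re

theorem app_eq (T : ℂ →L[ℝ] ℂ) (w : ℂ) : T w = w.re • T 1 + w.im • T Complex.I := by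
  rw [← T.map_smul, ← T.map_smul, ← T.map_add]
  congr 1
  apply Complex.ext <;> simp

theorem det_eq (T : ℂ →L[ℝ] ℂ) :
    T.det = (T 1).re * (T Complex.I).im - (T 1).im * (T Complex.I).re := by
  show LinearMap.det (T : ℂ →ₗ[ℝ] ℂ) = _
  rw [← LinearMap.det_toMatrix Complex.basisOneI, Matrix.det_fin_two]
  simp only [LinearMap.toMatrix_apply, Complex.coe_basisOneI_repr, Complex.coe_basisOneI,
    Matrix.cons_val_zero, Matrix.cons_val_one, ContinuousLinearMap.coe_coe]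
  ring

theorem dt_map (T : ℂ →L[ℝ] ℂ) (u v : ℂ) : dt (T u) (T v) = T.det * dt u v := by
  rw [det_eq, app_eq T u, app_eq T v]
  simp only [dt, Complex.add_re, Complex.add_im, Complex.real_smul, Complex.mul_re,
    Complex.mul_im, Complex.ofReal_re, Complex.ofReal_im]
  ring

theorem norm_sq_eq (z : ℂ) : ‖z‖ ^ 2 = z.re ^ 2 + z.im ^ 2 := by
  rw [← Complex.normSq_eq_norm_sq, Complex.normSq_apply]; ring

theorem dt_sq_le (u v : ℂ) : dt u v ^ 2 ≤ ‖u‖ ^ 2 * ‖v‖ ^ 2 := by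
  rw [norm_sq_eq, norm_sq_eq]
  simp only [dt]
  nlinarith [sq_nonneg (u.re * v.re + u.im * v.im)]

theorem dt_abs_le (u v : ℂ) : |dt u v| ≤ ‖u‖ * ‖v‖ := by
  apply abs_le_of_sq_le_sq _ (by positivity)
  rw [mul_pow]
  exact dt_sq_le u v

theorem det_low (T : ℂ →L[ℝ] ℂ) (u : ℂ) : |T.det| * ‖u‖ ≤ ‖T‖ * ‖T u‖ := by
  by_cases hu : ‖u‖ = 0
  · rw [hu]; simp; positivity
  have hpos : 0 < ‖u‖ := lt_of_le_of_ne (norm_nonneg _) (Ne.symm hu)
  have h1 := dt_map T u (Complex.I * u)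
  have h2 : dt u (Complex.I * u) = ‖u‖ ^ 2 := by
    rw [norm_sq_eq]
    simp [dt]
    ring
  have h3 := dt_abs_le (T u) (T (Complex.I * u))
  have h4 : ‖T (Complex.I * u)‖ ≤ ‖T‖ * ‖u‖ := by
    have := T.le_opNorm (Complex.I * u)
    simpa using this
  rw [h1, h2, abs_mul, abs_of_nonneg (by positivity : (0:ℝ) ≤ ‖u‖ ^ 2)] at h3
  have h5 : ‖T u‖ * ‖T (Complex.I * u)‖ ≤ ‖T u‖ * (‖T‖ * ‖u‖) :=
    mul_le_mul_of_nonneg_left h4 (norm_nonneg _)
  have h6 : (|T.det| * ‖u‖) * ‖u‖ ≤ (‖T‖ * ‖T u‖) * ‖u‖ := by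
    calc (|T.det| * ‖u‖) * ‖u‖ = |T.det| * ‖u‖ ^ 2 := by ring
      _ ≤ _ := h3
      _ ≤ _ := h5
      _ = _ := by ring
  exact le_of_mul_le_mul_right h6 hpos

theorem det_mul_c (k : ℂ) (T : ℂ →L[ℝ] ℂ) : (k • T).det = ‖k‖ ^ 2 * T.det := by
  rw [det_eq, det_eq, norm_sq_eq]
  have h : ∀ w, (k • T) w = k * T w := fun w => rfl
  rw [h, h]
  simp only [Complex.mul_re, Complex.mul_im]
  ring

theorem det_comp (S T : ℂ →L[ℝ] ℂ) : (S.comp T).det = S.det * T.det := by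
  show LinearMap.det ((S : ℂ →ₗ[ℝ] ℂ) ∘ₗ (T : ℂ →ₗ[ℝ] ℂ)) = _
  rw [LinearMap.det_comp]

/-! ## planar versions of homeomorphisms fixing infinity -/

theorem cr_iso (B : Sph → Sph) (hB : ∀ x y, dist (B x) (B y) = dist x y) (a b c e : Sph) :
    cr (B a) (B b) (B c) (B e) = cr a b c e := by
  unfold cr
  rw [hB, hB, hB, hB]

theorem inj_iso (B : Sph → Sph) (hB : ∀ x y, dist (B x) (B y) = dist x y) :
    Function.Injective B := by
  intro x y h
  rw [← dist_eq_zero, ← hB, h, dist_self]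

theorem qm_iso (N : ℝ → ℝ) (f : Sph → Sph) (hf : QM N f) (B1 B2 : Sph → Sph)
    (h1 : ∀ x y, dist (B1 x) (B1 y) = dist x y) (h2 : ∀ x y, dist (B2 x) (B2 y) = dist x y) :
    QM N (fun p => B1 (f (B2 p))) := by
  intro a b c e hD t ht
  show cr (B1 (f (B2 a))) (B1 (f (B2 b))) (B1 (f (B2 c))) (B1 (f (B2 e))) ≤ N t
  rw [cr_iso B1 h1]
  have hi := inj_iso B2 h2
  refine hf (B2 a) (B2 b) (B2 c) (B2 e) ?_ t ?_
  · obtain ⟨x1, x2, x3, x4, x5, x6⟩ := hD
    exact ⟨hi.ne x1, hi.ne x2, hi.ne x3, hi.ne x4, hi.ne x5, hi.ne x6⟩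
  · rw [cr_iso B2 h2]; exact ht

theorem sg_inj (hS : S_STB) : Function.Injective sg := by
  intro z w h
  rw [← hS.1 z, ← hS.1 w, h]

theorem planar (hS : S_STB) (h : Sph ≃ₜ Sph) (hh : h inf = inf) :
    ∃ u : ℂ ≃ₜ ℂ, ∀ z, sg (u z) = h (sg z) := by
  obtain ⟨s1, s2, s3, s4, s5, -⟩ := hS
  have hh' : h.symm inf = inf := by rw [← hh, h.symm_apply_apply, hh]
  have key : ∀ (k : Sph ≃ₜ Sph), k inf = inf → ∀ z, k (sg z) ≠ inf := by
    intro k hk z he
    exact s3 z (k.injective (he.trans hk.symm))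
  have hc : ∀ (k : Sph ≃ₜ Sph), k inf = inf → Continuous fun z => st (k (sg z)) := by
    intro k hk
    exact s5.comp_continuous (k.continuous.comp s4) (fun z => key k hk z)
  refine ⟨⟨⟨fun z => st (h (sg z)), fun z => st (h.symm (sg z)), ?_, ?_⟩, hc h hh, hc h.symm hh'⟩,
    ?_⟩
  · intro z
    show st (h.symm (sg (st (h (sg z))))) = z
    rw [s2 _ (key h hh z), h.symm_apply_apply, s1]
  · intro z
    show st (h (sg (st (h.symm (sg z))))) = z
    rw [s2 _ (key h.symm hh' z), h.apply_symm_apply, s1]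
  · intro z
    exact s2 _ (key h hh z)

theorem wqs_of (hS : S_STB) (N : ℝ → ℝ) (f : Sph → Sph) (hf : QM N f) (h : f inf = inf)
    (u : ℂ ≃ₜ ℂ) (hu : ∀ z, sg (u z) = f (sg z)) : WQS (max 1 (N 3)) u := by
  have hcr := hS.2.2.2.2.2.2.2.1
  have hsi := sg_inj hS
  intro a b c hab
  have hH : (1 : ℝ) ≤ max 1 (N 3) := le_max_left _ _
  by_cases h1 : a = b
  · subst h1
    rw [dist_self]
    exact mul_nonneg (by linarith) dist_nonneg
  by_cases h2 : a = c
  · subst h2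
    rw [dist_self, mul_zero] at hab
    exact absurd (dist_le_zero.1 hab) h1
  by_cases h3 : b = c
  · subst h3
    exact le_mul_of_one_le_left dist_nonneg hH
  have hD : D4 (sg a) (sg b) (sg c) inf :=
    ⟨hsi.ne h1, hsi.ne h2, hS.2.2.1 a, hsi.ne h3, hS.2.2.1 b, hS.2.2.1 c⟩
  have hc : 0 < dist a c := dist_pos.2 h2
  have huc : u a ≠ u c := u.injective.ne h2
  have hpos : 0 < dist (u a) (u c) := dist_pos.2 huc
  have h4 := hf _ _ _ _ hD 3 (by
    rw [hcr a b c h2, div_le_iff₀ hc]; exact hab)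
  rw [← hu, ← hu, ← hu, h, hcr _ _ _ huc, div_le_iff₀ hpos] at h4
  exact h4.trans (mul_le_mul_of_nonneg_right (le_max_right _ _) hpos.le)

/-- almost everywhere properties of one quasi-Moebius homeomorphism -/
theorem ae_one (hS : S_STB) (hR : S_ROT) (hD : S_DIFF) (hN : S_NZ) (N : ℝ → ℝ) :
    ∃ K : ℝ, 1 ≤ K ∧ ∀ f : Sph ≃ₜ Sph, QM N f → QM N f.symm → ∀ᵐ z : ℂ,
      f (sg z) ≠ inf ∧ DifferentiableAt ℝ (pl f) z ∧ (fderiv ℝ (pl f) z).det ≠ 0 ∧
        ‖fderiv ℝ (pl f) z‖ ^ 2 ≤ K * |(fderiv ℝ (pl f) z).det| := by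
  obtain ⟨K, hK1, hK⟩ := hD (max 1 (N 3))
  refine ⟨K, hK1, ?_⟩
  intro f hf hfs
  obtain ⟨B, hB, hBq, -, hB2, -⟩ := hR (f inf)
  have hBs : ∀ x y, dist (B.symm x) (B.symm y) = dist x y := by
    intro x y
    rw [← hB (B.symm x), B.apply_symm_apply, B.apply_symm_apply]
  have hid : ∀ x y : Sph, dist (id x) (id y) = dist x y := fun _ _ => rfl
  let h : Sph ≃ₜ Sph := f.trans B
  have hh : h inf = inf := hBq
  obtain ⟨u, hu⟩ := planar hS h hh
  have hw : WQS (max 1 (N 3)) u := by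
    refine wqs_of hS N h ?_ hh u hu
    exact qm_iso N f hf B id hB hid
  have hhs : h.symm inf = inf := by
    have := h.symm_apply_apply inf
    rw [hh] at this
    exact this
  have hus : ∀ z, sg (u.symm z) = h.symm (sg z) := by
    intro z
    apply h.injective
    rw [← hu, u.apply_symm_apply, h.apply_symm_apply]
  have hws : WQS (max 1 (N 3)) u.symm := by
    refine wqs_of hS N h.symm ?_ hhs u.symm hus
    exact qm_iso N f.symm hfs id B.symm hid hBs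
  have hpl : pl f = fun z => pl B.symm (u z) := by
    funext z
    show st (f (sg z)) = st (B.symm (sg (u z)))
    rw [hu z]
    show st (f (sg z)) = st (B.symm (B (f (sg z))))
    rw [B.symm_apply_apply]
  have hnull : ∀ᵐ z : ℂ, f (sg z) ≠ inf := by
    have hsub : {z : ℂ | ¬ f (sg z) ≠ inf}.Subsingleton := by
      intro z hz w hw
      have hz' : f (sg z) = inf := not_not.1 hz
      have hw' : f (sg w) = inf := not_not.1 hw
      exact sg_inj hS (f.injective (hz'.trans hw'.symm))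
    exact hsub.measure_zero volume
  filter_upwards [hnull, hK u hw, hN _ u hw hws] with z h1 h2 h3
  obtain ⟨h2a, h2b⟩ := h2
  have h4 : B.symm (sg (u z)) ≠ inf := by
    rw [hu z]
    show B.symm (B (f (sg z))) ≠ inf
    rw [B.symm_apply_apply]
    exact h1
  obtain ⟨k, hk0, hk⟩ := hB2 (u z) h4
  have h5 : HasFDerivAt (pl f) (k • fderiv ℝ u z) z := by
    rw [hpl]
    have h6 := hk.complexToReal_fderiv
    have h7 := h6.comp z h2a.hasFDerivAt
    have h8 : (k • (1 : ℂ →L[ℝ] ℂ)).comp (fderiv ℝ u z) = k • fderiv ℝ u z := by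
      ext
      simp
    rw [← h8]
    exact h7
  have hk2 : 0 < ‖k‖ ^ 2 := by
    have := norm_pos_iff.2 hk0
    positivity
  refine ⟨h1, h5.differentiableAt, ?_, ?_⟩
  · rw [h5.fderiv, det_mul_c]
    exact mul_ne_zero hk2.ne' h3
  · rw [h5.fderiv, det_mul_c, norm_smul, mul_pow, abs_mul, abs_of_pos hk2]
    calc ‖k‖ ^ 2 * ‖fderiv ℝ u z‖ ^ 2 ≤ ‖k‖ ^ 2 * (K * |(fderiv ℝ u z).det|) :=
          mul_le_mul_of_nonneg_left h2b hk2.le
      _ = _ := by ring

end Pool.Agent.Y852.ST
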